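import Pool.Agent.W91.BH.Stm

set_option autoImplicit false

open MeasureTheory Pool.Agent.W91.BH
open scoped ENNReal ContDiff

namespace Pool.Agent.W717.BH

lemma hcs (n a : ℕ) (σ : Fin n → ℤ) (B : E n → ℝ)
    (hs : ∀ x, B x ≠ 0 → ∀ i, -(σ i : ℝ) - 1 ≤ x i ∧ x i ≤ (2 : ℝ) ^ a - (σ i : ℝ) + 1) :
    HasCompactSupport B := by
  have hK : IsCompact ((WithLp.toLp 2 : (Fin n → ℝ) → E n) ''
      (Set.Icc (fun i => -(σ i : ℝ) - 1) (fun i => (2 : ℝ) ^ a - (σ i : ℝ) + 1))) :=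
    isCompact_Icc.image (PiLp.continuous_toLp 2 _)
  refine HasCompactSupport.intro hK ?_
  intro x hx
  by_contra h
  refine hx ⟨WithLp.ofLp x, ⟨fun i => ?_, fun i => ?_⟩, rfl⟩
  · exact (hs x h i).1
  · exact (hs x h i).2

lemma bdd (n M : ℕ) (B : E n → ℝ) (hB : ContDiff ℝ ∞ B) (hc : HasCompactSupport B) :
    ∃ C : ℝ, 0 ≤ C ∧ ∀ m ≤ M, ∀ x, ‖iteratedFDeriv ℝ m B x‖ ≤ C := by
  have h : ∀ m : ℕ, ∃ C : ℝ, ∀ x, ‖iteratedFDeriv ℝ m B x‖ ≤ C := by
    intro m
    have h1 : Continuous (iteratedFDeriv ℝ m B) :=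
      hB.continuous_iteratedFDeriv (by exact_mod_cast le_top)
    exact h1.bounded_above_of_compact_support (hc.iteratedFDeriv m)
  choose C hC using h
  refine ⟨∑ m ∈ Finset.range (M + 1), |C m|, Finset.sum_nonneg fun _ _ => abs_nonneg _, ?_⟩
  intro m hm x
  refine (hC m x).trans ((le_abs_self _).trans ?_)
  exact Finset.single_le_sum (f := fun m => |C m|) (fun _ _ => abs_nonneg _)
    (Finset.mem_range.2 (Nat.lt_succ_of_le hm))

lemma deriv_bound (n : ℕ) (B : E n → ℝ) (hB : ContDiff ℝ ∞ B) (C1 : ℝ) (m : ℕ)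
    (h : ∀ x, ‖iteratedFDeriv ℝ m B x‖ ≤ C1) (c R : ℝ) (hR : 0 ≤ R) (z : E n) (x : E n) :
    ‖iteratedFDeriv ℝ m (fun x => c * B (R • x - z)) x‖ ≤ |c| * (C1 * R ^ m) := by
  set L : E n →L[ℝ] E n := R • ContinuousLinearMap.id ℝ (E n) with hL
  have hg : ContDiff ℝ ∞ (fun y => B (y - z)) := hB.comp (contDiff_id.sub contDiff_const)
  have h1 : (fun x => c * B (R • x - z)) = c • ((fun y => B (y - z)) ∘ L) := by
    funext x
    simp [hL]
  have h2 : ContDiff ℝ ∞ ((fun y => B (y - z)) ∘ L) := hg.comp L.contDiff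
  rw [h1, iteratedFDeriv_const_smul_apply (h2.contDiffAt.of_le (by exact_mod_cast le_top)),
    norm_smul, Real.norm_eq_abs]
  refine mul_le_mul_of_nonneg_left ?_ (abs_nonneg _)
  rw [L.iteratedFDeriv_comp_right hg x (by exact_mod_cast le_top)]
  refine (ContinuousMultilinearMap.norm_compContinuousLinearMap_le _ _).trans ?_
  have hLn : ‖L‖ ≤ R := by
    rw [hL, norm_smul, Real.norm_eq_abs, abs_of_nonneg hR]
    exact mul_le_of_le_one_right hR ContinuousLinearMap.norm_id_le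
  rw [Finset.prod_const, Finset.card_univ, Fintype.card_fin, iteratedFDeriv_comp_sub]
  exact mul_le_mul (h _) (pow_le_pow_left₀ (norm_nonneg _) hLn m) (by positivity)
    ((norm_nonneg _).trans (h 0))

lemma moment (n N : ℕ) (B : E n → ℝ) (hB : Continuous B) (hc : HasCompactSupport B)
    (hM : S_MOM) (hV : VM n N B) (c R : ℝ) (hR : 0 < R) (z : E n) (β : Fin n → ℕ)
    (hβ : ∑ i, β i ≤ N) : ∫ x : E n, (∏ i, x i ^ β i) * (c * B (R • x - z)) = 0 := by
  have h0 : ∫ x : E n, (∏ i, x i ^ β i) * B (x - z) = 0 := by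
    rw [hM n N B hB hc (fun β h => hV β h.le) β z hβ]
    exact hV β hβ
  have h1 := Measure.integral_comp_smul (volume : Measure (E n))
    (fun x : E n => (∏ i, x i ^ β i) * B (x - z)) R
  rw [h0, smul_zero] at h1
  have h2 : ∀ x : E n, (∏ i, x i ^ β i) * (c * B (R • x - z)) =
      (c * (R ^ (∑ i, β i))⁻¹) * ((∏ i, (R • x) i ^ β i) * B (R • x - z)) := by
    intro x
    have h3 : (∏ i, (R • x) i ^ β i) = R ^ (∑ i, β i) * ∏ i, x i ^ β i := by
      rw [← Finset.prod_pow_eq_pow_sum, ← Finset.prod_mul_distrib]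
      refine Finset.prod_congr rfl fun i _ => ?_
      rw [PiLp.smul_apply, smul_eq_mul, mul_pow]
    rw [h3]
    have h4 : R ^ (∑ i, β i) ≠ 0 := (pow_pos hR _).ne'
    field_simp
  simp_rw [h2]
  rw [integral_const_mul, h1, mul_zero]

/-- Rescaled blocks are multiples of atoms. -/
theorem atom : S_MOM → S_ATOM := by
  intro hM n M N a σ B hB hσ hs hV
  have hc := hcs n a σ B hs
  obtain ⟨C1, hC1, hbd⟩ := bdd n M B hB hc
  have h2a : (1 : ℝ) ≤ 2 ^ a := one_le_pow₀ (by norm_num)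
  refine ⟨(C1 + 1) * ((2 : ℝ) ^ a) ^ M, by positivity, ?_⟩
  rintro ⟨k, z⟩ hk hz
  simp only at hk hz ⊢
  set C : ℝ := (C1 + 1) * ((2 : ℝ) ^ a) ^ M with hC
  have hCpos : 0 < C := by positivity
  have hpow : (2 : ℝ) ^ k = 2 ^ (k - a) * 2 ^ a := by
    rw [← pow_add, Nat.sub_add_cancel hk]
  refine ⟨?_, ?_, ?_, ?_⟩
  · unfold dil
    exact contDiff_const.mul (hB.comp ((contDiff_id.const_smul _).sub contDiff_const))
  · intro x hx i
    have h1 : B (dil n (k, z) x) ≠ 0 := fun h => hx (by simp [h])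
    obtain ⟨h2, h3⟩ := hs _ h1 i
    have h4 : dil n (k, z) x i = 2 ^ k * x i - z i := by
      simp [dil]
    have h5 : (z i : ℝ) = 2 ^ a * ((z i / 2 ^ a : ℤ) : ℝ) + σ i := by
      have h6 := Int.mul_ediv_add_emod (z i) (2 ^ a)
      rw [hz i] at h6
      have h7 := congrArg (fun t : ℤ => (t : ℝ)) h6
      push_cast at h7
      linarith
    rw [h4, h5, hpow] at h2 h3
    simp only
    set w : ℝ := ((z i / 2 ^ a : ℤ) : ℝ) with hw
    set y : ℝ := 2 ^ (k - a) * x i with hy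
    have hy2 : (2 : ℝ) ^ (k - a) * 2 ^ a * x i = 2 ^ a * y := by rw [hy]; ring
    rw [hy2] at h2 h3
    rw [abs_le]
    constructor
    · have h8 : -1 ≤ (2 : ℝ) ^ a * (y - w) := by nlinarith
      by_contra h9
      push Not at h9
      nlinarith
    · have h8 : (2 : ℝ) ^ a * (y - w - 1) ≤ 1 := by nlinarith
      by_contra h9
      push Not at h9
      nlinarith
  · intro m hm x
    simp only
    unfold dil
    refine (deriv_bound n B hB C1 m (hbd m hm) C⁻¹ ((2 : ℝ) ^ k) (by positivity) _ x).trans ?_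
    rw [abs_of_pos (inv_pos.2 hCpos), inv_mul_le_iff₀ hCpos, hpow, mul_pow, hC]
    have h1 : ((2 : ℝ) ^ a) ^ m ≤ (2 ^ a) ^ M := pow_le_pow_right₀ h2a hm
    have h2 : (0 : ℝ) ≤ (2 ^ (k - a)) ^ m := by positivity
    calc C1 * ((2 ^ (k - a)) ^ m * (2 ^ a) ^ m) = (C1 * (2 ^ a) ^ m) * (2 ^ (k - a)) ^ m := by ring
      _ ≤ ((C1 + 1) * (2 ^ a) ^ M) * (2 ^ (k - a)) ^ m := by
        refine mul_le_mul_of_nonneg_right ?_ h2
        exact mul_le_mul (by linarith) h1 (by positivity) (by linarith)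
  · intro _ β hβ
    unfold dil
    exact moment n N B hB.continuous hc hM hV C⁻¹ ((2 : ℝ) ^ k) (by positivity) _ β hβ

end Pool.Agent.W717.BH
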